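import Pool.Agent.Helper18.FF3.Stmts

set_option autoImplicit false

namespace Pool.Agent.Helper18.FF3

open Polynomial Pool.Agent.Helper14.BSC Pool.Agent.Helper60.FF

section

variable {F A B : Type} [Field F] [Field A] [Field B]

theorem gds_mp_div (ι : F →+* A) (p q : Polynomial F) :
    mp ι (algebraMap (Polynomial F) (RatFunc F) p / algebraMap (Polynomial F) (RatFunc F) q) =
      algebraMap (Polynomial A) (RatFunc A) (p.map ι) /
        algebraMap (Polynomial A) (RatFunc A) (q.map ι) := by
  unfold mp
  rw [RatFunc.coe_mapRingHom_eq_coe_map, RatFunc.map_apply_div]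
  rfl

theorem gds_mp_alg (ι : F →+* A) (p : Polynomial F) :
    mp ι (algebraMap (Polynomial F) (RatFunc F) p) =
      algebraMap (Polynomial A) (RatFunc A) (p.map ι) := by
  have h := gds_mp_div ι p 1
  rwa [map_one, div_one, Polynomial.map_one, map_one, div_one] at h

theorem gds_mp_C (ι : F →+* A) (a : F) : mp ι (RatFunc.C a) = RatFunc.C (ι a) := by
  rw [← RatFunc.algebraMap_C, gds_mp_alg, Polynomial.map_C, RatFunc.algebraMap_C]

theorem gds_comp (ι : F →+* A) (g : A →+* B) (x : RatFunc F) :
    mp g (mp ι x) = mp (g.comp ι) x := by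
  rw [← RatFunc.num_div_denom x, gds_mp_div, gds_mp_div, gds_mp_div, Polynomial.map_map,
    Polynomial.map_map]

/-- common denominators -/
theorem gds_clear (ρ : Polynomial (RatFunc A)) : ∃ (D : Polynomial A) (R : Polynomial (Polynomial A)),
    D ≠ 0 ∧ R.map (algebraMap (Polynomial A) (RatFunc A)) =
      C (algebraMap (Polynomial A) (RatFunc A) D) * ρ := by
  obtain ⟨b, hb, h⟩ := IsLocalization.integerNormalization_spec (nonZeroDivisors (Polynomial A)) ρ
  refine ⟨b, IsLocalization.integerNormalization (nonZeroDivisors (Polynomial A)) ρ,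
    nonZeroDivisors.ne_zero hb, ?_⟩
  rw [h]
  ext n
  rw [Polynomial.coeff_smul, Polynomial.coeff_C_mul, Algebra.smul_def]

theorem gds_eval_alg (R : Polynomial (Polynomial A)) (e : Polynomial A) :
    algebraMap (Polynomial A) (RatFunc A) (R.eval e) =
      (R.map (algebraMap (Polynomial A) (RatFunc A))).eval
        (algebraMap (Polynomial A) (RatFunc A) e) := by
  rw [Polynomial.eval_map, Polynomial.eval₂_at_apply]

end

theorem st_GDS (hKPC : ST_KPC) (hGFX : ST_GFX) (hWRO : ST_WRO) : ST_GDS := by
  intro F A _ _ _ _ ι halg ρ h hρ hne hrel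
  have hchA : CharZero A := charZero_of_injective_ringHom ι.injective
  have hchR : CharZero (RatFunc A) :=
    charZero_of_injective_ringHom (f := (RatFunc.C : A →+* RatFunc A)) (RingHom.injective _)
  have hnat : ∀ (n : ℕ), mp ι ((n : RatFunc F)) = (n : RatFunc A) := fun n => map_natCast _ n
  -- the base point
  obtain ⟨n0, hn0⟩ : ∃ n0 : ℕ, ρ.eval (n0 : RatFunc A) ≠ 0 := by
    by_contra hcon
    push Not at hcon
    apply hρ
    exact Polynomial.eq_zero_of_infinite_isRoot ρ
      ((Set.infinite_range_of_injective (Nat.cast_injective (R := RatFunc A))).mono (by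
        rintro _ ⟨n, rfl⟩
        exact hcon n))
  obtain ⟨r0, hr0⟩ : ∃ r0, r0 = ρ.eval (n0 : RatFunc A) := ⟨_, rfl⟩
  rw [← hr0] at hn0
  obtain ⟨P, hP⟩ : ∃ P, P = C r0⁻¹ * ρ := ⟨_, rfl⟩
  have hPρ : ρ = C r0 * P := by
    rw [hP, ← mul_assoc, ← C_mul, mul_inv_cancel₀ hn0, C_1, one_mul]
  have hPe : ∀ x, P.eval x = r0⁻¹ * ρ.eval x := by
    intro x
    rw [hP, Polynomial.eval_mul, Polynomial.eval_C]
  have hP0 : P.eval (n0 : RatFunc A) = 1 := by
    rw [hPe, ← hr0, inv_mul_cancel₀ hn0]
  have hPne : P ≠ 0 := by
    intro h0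
    rw [h0, Polynomial.eval_zero] at hP0
    exact zero_ne_one hP0
  have key : ∀ g : A →+* A, g.comp ι = ι → P.map (mp g) = P := by
    intro g hg
    have hgι : ∀ x : RatFunc F, mp g (mp ι x) = mp ι x := by
      intro x
      rw [gds_comp, hg]
    have hPg : ∀ c : RatFunc F, (P.map (mp g)).eval (mp ι c) = mp g (P.eval (mp ι c)) := by
      intro c
      conv_lhs => rw [← hgι c]
      rw [Polynomial.eval_map, Polynomial.eval₂_at_apply]
    -- proportionality
    have hprop : ∀ c : RatFunc F, ∃ b : A, mp g (P.eval (mp ι c)) = RatFunc.C b * P.eval (mp ι c) := by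
      intro c
      by_cases hc : P.eval (mp ι c) = 0
      · exact ⟨1, by rw [hc, map_zero, mul_zero]⟩
      · have hcρ : ρ.eval (mp ι c) ≠ 0 := by
          intro h0
          apply hc
          rw [hPe, h0, mul_zero]
        have hgc : mp g (P.eval (mp ι c)) ≠ 0 := by
          intro h0
          exact hc ((map_eq_zero _).1 h0)
        obtain ⟨b, hb⟩ := hKPC A (mp g (P.eval (mp ι c)) / P.eval (mp ι c)) (div_ne_zero hgc hc) (by
          intro m hm
          have hn0' : ρ.eval (mp ι (n0 : RatFunc F)) ≠ 0 := by
            rw [hnat, ← hr0]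
            exact hn0
          obtain ⟨b, z, hb, hz, hbz⟩ := hrel m hm c (n0 : RatFunc F) hcρ hn0'
          rw [hnat, ← hr0] at hbz
          have hH0 : mp ι (h m (n0 : RatFunc F)) ≠ 0 := by
            intro h0
            exact hne m _ hm hn0' ((map_eq_zero _).1 h0)
          have e1 : mp ι (h m c) = mp ι (h m (n0 : RatFunc F)) *
              (P.eval (mp ι c) * (RatFunc.C b * z ^ m)) := by
            rw [hPe]
            field_simp
            rw [hbz]
            ring
          have e2 := congrArg (mp g) e1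
          rw [hgι, map_mul, hgι, map_mul, map_mul, gds_mp_C, map_pow] at e2
          rw [e2] at e1
          have e3 := mul_left_cancel₀ hH0 e1
          have hzg : mp g z ≠ 0 := by
            intro h0
            exact hz ((map_eq_zero _).1 h0)
          have hbg : g b ≠ 0 := by
            intro h0
            exact hb ((map_eq_zero _).1 h0)
          refine ⟨b / g b, z / mp g z, ?_⟩
          have hCg : RatFunc.C (g b) ≠ 0 := by
            intro h0
            exact hbg ((map_eq_zero _).1 h0)
          rw [map_div₀, div_pow, div_mul_div_comm, div_eq_div_iff hc (mul_ne_zero hCg (pow_ne_zero _ hzg))]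
          rw [e3]
          ring)
        refine ⟨b, ?_⟩
        rw [← hb, div_mul_cancel₀ _ hc]
    obtain ⟨D, R, hD, hR⟩ := gds_clear P
    have hDg : D.map g ≠ 0 := (Polynomial.map_ne_zero_iff g.injective).2 hD
    have hRg : (R.map (Polynomial.mapRingHom g)).map (algebraMap (Polynomial A) (RatFunc A)) =
        C (algebraMap (Polynomial A) (RatFunc A) (D.map g)) * P.map (mp g) := by
      have h1 := congrArg (Polynomial.map (mp g)) hR
      rw [Polynomial.map_mul, Polynomial.map_C, gds_mp_alg, Polynomial.map_map] at h1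
      have h2 : (algebraMap (Polynomial A) (RatFunc A)).comp (Polynomial.mapRingHom g) =
          (mp g).comp (algebraMap (Polynomial A) (RatFunc A)) := by
        apply RingHom.ext
        intro x
        change algebraMap (Polynomial A) (RatFunc A) (x.map g) =
          mp g (algebraMap (Polynomial A) (RatFunc A) x)
        rw [gds_mp_alg]
      rw [← h1, Polynomial.map_map, h2]
    have hRne : R ≠ 0 := by
      intro h0
      rw [h0, Polynomial.map_zero] at hR
      have h1 : C (algebraMap (Polynomial A) (RatFunc A) D) ≠ 0 := by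
        rw [Ne, Polynomial.C_eq_zero]
        exact RatFunc.algebraMap_ne_zero hD
      exact (mul_ne_zero h1 hPne) hR.symm
    have hgen : ∀ (e : Polynomial A) (c : RatFunc F),
        mp ι c = algebraMap (Polynomial A) (RatFunc A) e →
        ∃ a b : A, (a ≠ 0 ∨ b ≠ 0) ∧
          C a * (C D * R.map (Polynomial.mapRingHom g)).eval e = C b * (C (D.map g) * R).eval e := by
      intro e c hce
      obtain ⟨b, hb⟩ := hprop c
      refine ⟨1, b, Or.inl one_ne_zero, ?_⟩
      apply RatFunc.algebraMap_injective A
      rw [map_mul, map_mul, RatFunc.algebraMap_C, RatFunc.algebraMap_C, gds_eval_alg, gds_eval_alg,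
        Polynomial.map_mul, Polynomial.map_mul, Polynomial.map_C, Polynomial.map_C, hRg, hR, ← hce,
        Polynomial.eval_mul, Polynomial.eval_mul, Polynomial.eval_mul, Polynomial.eval_mul,
        Polynomial.eval_C, Polynomial.eval_C, hPg, hb, map_one]
      ring
    obtain ⟨r, hr⟩ := hWRO A (C D * R.map (Polynomial.mapRingHom g)) (C (D.map g) * R)
      (Set.range (Nat.cast : ℕ → A))
      (Set.infinite_range_of_injective Nat.cast_injective)
      (mul_ne_zero (Polynomial.C_ne_zero.2 hDg) hRne) (by
        rintro _ ⟨n, rfl⟩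
        refine hgen (C (n : A)) (n : RatFunc F) ?_
        rw [hnat, RatFunc.algebraMap_C, map_natCast]) (by
        rintro _ ⟨n, rfl⟩
        refine hgen (C (n : A) + X) ((n : RatFunc F) + RatFunc.X) ?_
        have h1 : (RatFunc.X : RatFunc F) = algebraMap (Polynomial F) (RatFunc F) X :=
          RatFunc.algebraMap_X.symm
        rw [map_add, hnat, h1, gds_mp_alg, Polynomial.map_X, map_add, RatFunc.algebraMap_C,
          map_natCast])
    have hr2 := congrArg (Polynomial.map (algebraMap (Polynomial A) (RatFunc A))) hr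
    rw [Polynomial.map_mul, Polynomial.map_mul, Polynomial.map_mul, Polynomial.map_C,
      Polynomial.map_C, Polynomial.map_C, hRg, hR, RatFunc.algebraMap_C] at hr2
    have hCD : C (algebraMap (Polynomial A) (RatFunc A) D) ≠ 0 := by
      rw [Ne, Polynomial.C_eq_zero]
      exact RatFunc.algebraMap_ne_zero hD
    have hCDg : C (algebraMap (Polynomial A) (RatFunc A) (D.map g)) ≠ 0 := by
      rw [Ne, Polynomial.C_eq_zero]
      exact RatFunc.algebraMap_ne_zero hDg
    have hr3 : P.map (mp g) = C (RatFunc.C r) * P := by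
      apply mul_left_cancel₀ (mul_ne_zero hCD hCDg)
      linear_combination hr2
    have hr4 := congrArg (Polynomial.eval (n0 : RatFunc A)) hr3
    rw [Polynomial.eval_mul, Polynomial.eval_C, hP0, mul_one, ← hnat, hPg, hnat, hP0, map_one] at hr4
    rw [hr3, ← hr4, C_1, one_mul]
  have hlift : P ∈ Polynomial.lifts (mp ι) := by
    rw [Polynomial.lifts_iff_coeff_lifts]
    intro n
    obtain ⟨y, hy⟩ := hGFX F A ι halg (P.coeff n) (by
      intro g hg
      have h1 := congrArg (fun Q => Polynomial.coeff Q n) (key g hg)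
      simpa only [Polynomial.coeff_map] using h1)
    exact ⟨y, hy.symm⟩
  obtain ⟨ρ₀, hρ₀⟩ := (Polynomial.mem_lifts P).1 hlift
  exact ⟨ρ₀, r0, hn0, by rw [hρ₀]; exact hPρ⟩

end Pool.Agent.Helper18.FF3
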